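import Mathlib

namespace Pool.Agent.H.MP_51339e_an

open Filter Topology Set
open scoped MeasureTheory

/-- the Baire sigma-algebra of the weak topology: the smallest sigma-algebra for which every weakly
continuous real function is measurable -/
@[reducible] def Ba (K X : Type) [RCLike K] [NormedAddCommGroup X] [NormedSpace K X] :
    MeasurableSpace X :=
  ⨆ (f : X → ℝ) (_ : Continuous fun x : WeakSpace K X => f ((toWeakSpace K X).symm x)),
    MeasurableSpace.comap f (borel ℝ)

variable (K : Type) [RCLike K]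

abbrev Y := lp (fun _ : (ℕ × ℕ × ℤ) ⊕ ℝ => K) ⊤

/-- a bounded function as an element of `Y` -/
noncomputable def mk (f : (ℕ × ℕ × ℤ) ⊕ ℝ → K) (h : ∀ i, ‖f i‖ ≤ 1) : Y K :=
  ⟨f, memℓp_infty ⟨1, by rintro _ ⟨i, rfl⟩; exact h i⟩⟩

open Classical in
/-- unit vectors -/
noncomputable def ev (c : ℝ) : Y K :=
  mk K (fun i => if i = .inr c then 1 else 0) fun i => by split_ifs <;> simp

lemma inv_le (k : ℕ) : ‖((k : K) + 1)⁻¹‖ = 1 / ((k : ℝ) + 1) := by
  rw [norm_inv, one_div]; congr 1; exact_mod_cast RCLike.norm_natCast (K := K) (k + 1)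

open Classical in
/-- small markers -/
noncomputable def mv (c : ℝ) (k : ℕ) : Y K :=
  mk K (fun i => if ∃ m : ℕ, i = .inl (k, m, ⌊m * c⌋) then ((k : K) + 1)⁻¹ else 0) fun i => by
    split_ifs
    · rw [inv_le, div_le_one (by positivity)]; simp
    · simp

/-- the dense subspace -/
noncomputable def AA : Submodule K (Y K) :=
  Submodule.span K (range fun p : ℝ × ℕ => ev K p.1 + mv K p.1 p.2)

lemma ev_mem (c : ℝ) : ev K c ∈ (AA K).topologicalClosure := by
  refine mem_closure_of_tendsto (b := atTop) (f := fun k => ev K c + mv K c k) ?_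
    (.of_forall fun k => Submodule.subset_span ⟨(c, k), rfl⟩)
  refine tendsto_iff_norm_sub_tendsto_zero.2 (squeeze_zero (fun _ => norm_nonneg _)
    (fun k => ?_) tendsto_one_div_add_atTop_nhds_zero_nat)
  rw [add_sub_cancel_left]
  refine lp.norm_le_of_forall_le (by positivity) fun i => ?_
  simp only [mv, mk]
  split_ifs
  · exact (inv_le K k).le
  · simp; positivity

lemma str {a : Y K} (ha : a ∈ AA K) : ∀ᶠ F : Finset ℝ in atTop, (∀ c ∉ F, a (.inr c) = 0) ∧
    ∀ (m : ℕ) (j : ℤ), ∀ᶠ N in atTop, ∑ k ∈ Finset.range N, ((k : K) + 1) * a (.inl (k, m, j)) =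
      ∑ c ∈ F, if ⌊m * c⌋ = j then a (.inr c) else 0 := by
  induction ha using Submodule.span_induction with
  | mem a ha =>
    obtain ⟨⟨c, k⟩, rfl⟩ := ha
    have e1 : ∀ d, (ev K c + mv K c k) (.inr d) = if d = c then 1 else 0 := fun d => by
      simp [ev, mv, mk]
    filter_upwards [eventually_ge_atTop {c}] with F hF
    have hc : c ∈ F := hF (Finset.mem_singleton_self c)
    refine ⟨fun d hd => by rw [e1, if_neg (by rintro rfl; exact hd hc)], fun m j => ?_⟩
    filter_upwards [eventually_gt_atTop k] with N hN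
    rw [Finset.sum_eq_single_of_mem k (Finset.mem_range.2 hN), Finset.sum_eq_single_of_mem c hc]
    · have : (k : K) + 1 ≠ 0 := by exact_mod_cast k.succ_ne_zero
      by_cases h : ⌊m * c⌋ = j
      · subst h; simp [ev, mv, mk, this]
      · simp [ev, mv, mk, h, Ne.symm h]
    · intro d _ hd; simp [e1, hd]
    · intro l _ hl; simp [ev, mv, mk, hl]
  | zero => exact .of_forall fun F => by simp
  | add a b _ _ ha hb =>
    filter_upwards [ha, hb] with F h1 h2
    refine ⟨fun c hc => by simp [h1.1 c hc, h2.1 c hc], fun m j => ?_⟩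
    filter_upwards [h1.2 m j, h2.2 m j] with N e1 e2
    simp only [lp.coeFn_add, Pi.add_apply, mul_add, Finset.sum_add_distrib, e1, e2]
    rw [← Finset.sum_add_distrib]
    exact Finset.sum_congr rfl fun c _ => by split_ifs <;> simp
  | smul t a _ ha =>
    filter_upwards [ha] with F h1
    refine ⟨fun c hc => by simp [h1.1 c hc], fun m j => ?_⟩
    filter_upwards [h1.2 m j] with N e1
    simp only [lp.coeFn_smul, Pi.smul_apply, smul_eq_mul, mul_left_comm _ t, ← Finset.mul_sum, e1]
    rw [Finset.mul_sum]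
    exact Finset.sum_congr rfl fun c _ => by split_ifs <;> simp

lemma nrm {a : Y K} (ha : a ∈ AA K) (r : ℝ) : ‖a‖ ≤ r ↔ (∀ i, ‖a (.inl i)‖ ≤ r) ∧
    ∀ᶠ m : ℕ in atTop, ∀ j : ℤ, ∀ᶠ N in atTop,
      ‖∑ k ∈ Finset.range N, ((k : K) + 1) * a (.inl (k, m, j))‖ ≤ r := by
  obtain ⟨F, h1, h2⟩ := (str K ha).exists
  have h3 : ∀ᶠ m : ℕ in atTop, ∀ c ∈ F, ∀ d ∈ F, d ≠ c → ⌊m * d⌋ ≠ ⌊m * c⌋ := by
    refine (eventually_all_finset F).2 fun c _ => (eventually_all_finset F).2 fun d _ => ?_
    by_cases h : d = c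
    · exact .of_forall fun m h' => absurd h h'
    have h0 : 0 < |d - c| := abs_pos.2 (sub_ne_zero.2 h)
    filter_upwards [(tendsto_natCast_atTop_atTop.atTop_mul_const h0).eventually_ge_atTop 1]
      with m hm _ e
    have := Int.abs_sub_lt_one_of_floor_eq_floor e
    rw [← mul_sub, abs_mul, Nat.abs_cast] at this
    linarith
  have h4 : ∀ᶠ m : ℕ in atTop, ∀ c ∈ F, (∑ d ∈ F, if ⌊m * d⌋ = ⌊m * c⌋ then a (.inr d) else 0) =
      a (.inr c) := h3.mono fun m hm c hc => by
    rw [Finset.sum_eq_single_of_mem c hc fun d hd e => if_neg (hm c hc d hd e), if_pos rfl]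
  have le := fun i => lp.norm_apply_le_norm ENNReal.top_ne_zero a i
  refine ⟨fun h => ⟨fun i => (le _).trans h, h4.mono fun m hm j => (h2 m j).mono fun N hN => ?_⟩,
    fun ⟨h5, h6⟩ => ?_⟩
  · rw [hN]
    by_cases e : ∃ c ∈ F, ⌊m * c⌋ = j
    · obtain ⟨c, hc, rfl⟩ := e
      rw [hm c hc]; exact (le _).trans h
    · rw [Finset.sum_eq_zero fun c hc => if_neg fun e' => e ⟨c, hc, e'⟩, norm_zero]
      exact (norm_nonneg _).trans h
  · have h0 : 0 ≤ r := (norm_nonneg _).trans (h5 0)
    refine lp.norm_le_of_forall_le h0 ?_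
    rintro (i | c)
    · exact h5 i
    by_cases hc : c ∈ F
    · obtain ⟨m, e1, e2⟩ := (h4.and h6).exists
      obtain ⟨N, e3, e4⟩ := ((h2 m ⌊m * c⌋).and (e2 ⌊m * c⌋)).exists
      rwa [e3, e1 c hc] at e4
    · rwa [h1 c hc, norm_zero]

variable {K}
variable {X : Type} [NormedAddCommGroup X] [NormedSpace K X]

lemma meas (f : X →L[K] K) (r : ℝ) : MeasurableSet[Ba K X] {x | ‖f x‖ ≤ r} := by
  refine (le_iSup₂_of_le (f := fun (f : X → ℝ) (_ : Continuous fun x : WeakSpace K X =>
    f ((toWeakSpace K X).symm x)) => MeasurableSpace.comap f (borel ℝ)) (fun x => ‖f x‖)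
    (WeakBilin.eval_continuous (topDualPairing K X).flip f).norm le_rfl) _ ⟨Iic r, ?_, rfl⟩
  exact measurableSet_Iic

lemma notm (e : ℝ → X) (h1 : ∀ c, ‖e c‖ = 1)
    (h2 : ∀ (F : Finset ℝ) (u : ℝ → K), (∀ c, ‖u c‖ = 1) → ‖∑ c ∈ F, u c • e c‖ ≤ 1) :
    ¬Measurable[Ba K X, borel ℝ] fun x : X => ‖x‖ := by
  intro h
  let M : MeasurableSpace X :=
    { MeasurableSet' := fun B => {c | ¬(e c ∈ B ↔ (0 : X) ∈ B)}.Countable
      measurableSet_empty := by simp
      measurableSet_compl := fun B hB => by simpa [not_iff_not] using hB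
      measurableSet_iUnion := fun B hB => (countable_iUnion hB).mono fun c hc => by
        by_contra h
        simp only [mem_iUnion, mem_setOf_eq, not_exists, not_not] at h hc
        exact hc (exists_congr h) }
  have t1 : Tendsto (fun c => toWeakSpace K X (e c)) cofinite (𝓝 (toWeakSpace K X 0)) := by
    refine (IsInducing.tendsto_nhds_iff (g := fun (x : WeakSpace K X) f =>
      (topDualPairing K X).flip x f) ⟨rfl⟩).2 (tendsto_pi_nhds.2 fun f => ?_)
    change Tendsto (fun c => f (e c)) cofinite (𝓝 (f 0))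
    rw [map_zero, tendsto_zero_iff_norm_tendsto_zero]
    refine (summable_of_sum_le (c := ‖f‖) (fun _ => norm_nonneg _) fun F => ?_).tendsto_cofinite_zero
    choose u hu hu' using fun c => RCLike.exists_norm_eq_mul_self (f (e c))
    have := f.le_opNorm_of_le (h2 F u hu)
    simp only [map_sum, map_smul, smul_eq_mul, ← hu', mul_one] at this
    rw [← RCLike.ofReal_sum, RCLike.norm_ofReal] at this
    exact (le_abs_self _).trans this
  have hM : Ba K X ≤ M := by
    refine iSup₂_le fun f hf => ?_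
    rintro _ ⟨B, -, rfl⟩
    change Set.Countable {c | ¬(e c ∈ f ⁻¹' B ↔ (0 : X) ∈ f ⁻¹' B)}
    refine ((hf.tendsto _).comp t1).countable_compl_preimage_ker.mono fun c hc => ?_
    refine fun e' => hc ?_
    have : f (e c) = f 0 := by simpa using e'
    simp [this]
  have := hM _ (h (show MeasurableSet[borel ℝ] (Iic (0 : ℝ)) from measurableSet_Iic))
  refine Cardinal.not_countable_real (Set.Countable.mono (fun c _ => ?_) this)
  simp [h1]

end Pool.Agent.H.MP_51339e_an
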